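import Mathlib
import Pool.Agent.W587.MX.Stm

/-! MX-TOUCH: the real logarithmic derivative at maximum points. -/

set_option autoImplicit false

namespace Pool.Agent.W168.MX

open Pool.Agent.W587.MX Filter Topology
open scoped ComplexConjugate

theorem touch : P1_TOUCH := by
  intro f M r hf hr hM hle z hz hfz hne
  have hr0 : (r : ℂ) ≠ 0 := by exact_mod_cast hr.ne'
  have hM0 : M r ≠ 0 := by
    rw [← hfz]
    exact norm_ne_zero_iff.mpr hne
  -- radial
  have hq : HasDerivAt (fun s : ℝ => f ((s : ℂ) / r * z)) (deriv f z * (z / r)) r := by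
    have h1 : HasDerivAt (fun s : ℂ => s / r * z) (z / r) (r : ℂ) := by
      have h := ((hasDerivAt_id (r : ℂ)).div_const (r : ℂ)).mul_const z
      have e : (1 : ℂ) / (r : ℂ) * z = z / r := by ring
      rw [e] at h
      exact h
    have h2 : HasDerivAt f (deriv f z) ((r : ℂ) / r * z) := by
      rw [div_self hr0, one_mul]
      exact (hf z).hasDerivAt
    exact (h2.comp (r : ℂ) h1).comp_ofReal
  have hq2 := hq.norm_sq
  have hM2 : HasDerivAt (fun s => M s ^ 2) (2 * M r * deriv M r) r := by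
    have h := hM.hasDerivAt.pow 2
    have e : ((2 : ℕ) : ℝ) * M r ^ (2 - 1) * deriv M r = 2 * M r * deriv M r := by
      norm_num
    rw [e] at h
    exact h
  have hmin : IsLocalMin (fun s : ℝ => M s ^ 2 - ‖f ((s : ℂ) / r * z)‖ ^ 2) r := by
    have hpos : ∀ᶠ s in 𝓝 r, 0 < s := lt_mem_nhds hr
    filter_upwards [hpos] with s hs
    have e1 : M r ^ 2 - ‖f ((r : ℂ) / r * z)‖ ^ 2 = 0 := by
      rw [div_self hr0, one_mul, hfz, sub_self]
    rw [e1]
    have hnorm : ‖(s : ℂ) / r * z‖ = s := by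
      rw [norm_mul, norm_div, Complex.norm_real, Complex.norm_real, hz, Real.norm_eq_abs,
        Real.norm_eq_abs, abs_of_pos hs, abs_of_pos hr]
      field_simp
    have hne0 : (s : ℂ) / r * z ≠ 0 := by
      rw [← norm_ne_zero_iff, hnorm]
      exact hs.ne'
    have h3 := hle _ hne0
    rw [hnorm] at h3
    have h4 : ‖f ((s : ℂ) / r * z)‖ ^ 2 ≤ M s ^ 2 := pow_le_pow_left₀ (norm_nonneg _) h3 2
    linarith
  have hrad := hmin.hasDerivAt_eq_zero (hM2.sub hq2)
  -- angular
  have hp : HasDerivAt (fun t : ℝ => f (z * Complex.exp ((t : ℂ) * Complex.I)))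
      (deriv f z * (z * Complex.I)) 0 := by
    have h1 : HasDerivAt (fun t : ℂ => z * Complex.exp (t * Complex.I)) (z * Complex.I)
        ((0 : ℝ) : ℂ) := by
      have h := (((hasDerivAt_id ((0 : ℝ) : ℂ)).mul_const Complex.I).cexp).const_mul z
      simpa using h
    have h2 : HasDerivAt f (deriv f z) (z * Complex.exp (((0 : ℝ) : ℂ) * Complex.I)) := by
      simpa using (hf z).hasDerivAt
    exact (h2.comp (((0 : ℝ) : ℂ)) h1).comp_ofReal
  have hp2 := hp.norm_sq
  have hmax : IsLocalMax (fun t : ℝ => ‖f (z * Complex.exp ((t : ℂ) * Complex.I))‖ ^ 2) 0 := by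
    refine Filter.Eventually.of_forall (fun t => ?_)
    have hnorm : ‖z * Complex.exp ((t : ℂ) * Complex.I)‖ = r := by
      rw [norm_mul, Complex.norm_exp_ofReal_mul_I, mul_one, hz]
    have hne0 : z * Complex.exp ((t : ℂ) * Complex.I) ≠ 0 := by
      rw [← norm_ne_zero_iff, hnorm]
      exact hr.ne'
    have h3 := hle _ hne0
    rw [hnorm] at h3
    have e0 : ‖f (z * Complex.exp ((((0 : ℝ)) : ℂ) * Complex.I))‖ = M r := by simp [hfz]
    show ‖f (z * Complex.exp ((t : ℂ) * Complex.I))‖ ^ 2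
      ≤ ‖f (z * Complex.exp ((((0 : ℝ)) : ℂ) * Complex.I))‖ ^ 2
    rw [e0]
    exact pow_le_pow_left₀ (norm_nonneg _) h3 2
  have hang := hmax.hasDerivAt_eq_zero hp2
  -- combine
  rw [div_self hr0, one_mul, Complex.inner] at hrad
  simp only [Complex.ofReal_zero, zero_mul, Complex.exp_zero, mul_one, Complex.inner] at hang
  obtain ⟨Y, hY⟩ : ∃ Y : ℂ, Y = conj (f z) * (z * deriv f z) := ⟨_, rfl⟩
  have hYr : Y.re = r * (M r * deriv M r) := by
    have e : deriv f z * (z / r) * conj (f z) = Y / r := by rw [hY]; ring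
    rw [e, Complex.div_ofReal_re] at hrad
    field_simp at hrad
    linarith
  have hYi : Y.im = 0 := by
    have e : deriv f z * (z * Complex.I) * conj (f z) = Y * Complex.I := by rw [hY]; ring
    rw [e, Complex.mul_I_re] at hang
    linarith
  have hYeq : Y = ((r * (M r * deriv M r) : ℝ) : ℂ) := by
    apply Complex.ext
    · rw [hYr, Complex.ofReal_re]
    · rw [hYi, Complex.ofReal_im]
  have hnsq : f z * conj (f z) = ((M r : ℝ) : ℂ) ^ 2 := by
    rw [Complex.mul_conj, Complex.normSq_eq_norm_sq, hfz]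
    push_cast
    ring
  have hMC : ((M r : ℝ) : ℂ) ≠ 0 := by exact_mod_cast hM0
  have h5 : ((M r : ℝ) : ℂ) ^ 2 * (z * deriv f z) = f z * ((r * (M r * deriv M r) : ℝ) : ℂ) := by
    rw [← hnsq, ← hYeq, hY]
    ring
  have h6 : z * deriv f z = f z * ((r * (M r * deriv M r) : ℝ) : ℂ) / ((M r : ℝ) : ℂ) ^ 2 := by
    rw [eq_div_iff (pow_ne_zero 2 hMC), mul_comm]
    exact h5
  rw [h6]
  push_cast
  field_simp

end Pool.Agent.W168.MX
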